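import Pool.Agent.helper5.EY.St
import Pool.Agent.helper51.EY.CM

set_option autoImplicit false
set_option linter.unusedSectionVars false
set_option linter.unusedSimpArgs false

/-!
# EY-K3C: `Rz 3 3 7`

`f = T y u + 5 w³ y`, `T = u w + y²/2`, metric `2 u w + y²`.  In the chart `u = 1` the equations are
`y (w + y²/2 - 15 w³) = 0` and `w + y²/2 + 5 w³ - 15 w² y² = 0`: the sheet `y = 0` has multiplicity 1 and the other sheet
has multiplicity 6 (weights 2, 1; the difference of the equations is `20 w³ - 15 w² y²`).
-/

namespace EY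

namespace K3C

open MvPolynomial

noncomputable section

/-- the form -/
def f : MvPolynomial (Option (Option Unit)) ℂ :=
  (X none * X (some none) + C (1 / 2) * X (some (some ())) ^ 2) * (X none * X (some (some ()))) +
    C 5 * (X (some none) ^ 3 * X (some (some ())))

theorem f_hom : f.IsHomogeneous (3 + 1) := by
  unfold f
  have h1 : (X none * X (some none) + C (1 / 2) * X (some (some ())) ^ 2 :
      MvPolynomial (Option (Option Unit)) ℂ).IsHomogeneous 2 := by
    refine IsHomogeneous.add ((isHomogeneous_X ℂ _).mul (isHomogeneous_X ℂ _)) ?_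
    have := (isHomogeneous_C (Option (Option Unit)) (1 / 2 : ℂ)).mul
      ((isHomogeneous_X ℂ (some (some ()) : Option (Option Unit))).pow 2)
    simpa using this
  refine IsHomogeneous.add (h1.mul ((isHomogeneous_X ℂ _).mul (isHomogeneous_X ℂ _))) ?_
  have := (isHomogeneous_C (Option (Option Unit)) (5 : ℂ)).mul
    (((isHomogeneous_X ℂ (some none : Option (Option Unit))).pow 3).mul
      (isHomogeneous_X ℂ (some (some ()) : Option (Option Unit))))
  simpa using this

theorem C_half : (C (1 / 2) : MvPolynomial (Option (Option Unit)) ℂ) * 2 = 1 := by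
  rw [← map_ofNat (C : ℂ →+* MvPolynomial (Option (Option Unit)) ℂ) 2, ← C_mul]
  norm_num

theorem f_u : pderiv none f = 2 * (X none * X (some none) * X (some (some ()))) +
    C (1 / 2) * X (some (some ())) ^ 3 := by
  unfold f
  simp [pderiv_X, Derivation.leibniz, Derivation.leibniz_pow]
  ring

theorem f_w : pderiv (some none) f = X none ^ 2 * X (some (some ())) +
    C 15 * (X (some none) ^ 2 * X (some (some ()))) := by
  unfold f
  have h : (C 15 : MvPolynomial (Option (Option Unit)) ℂ) = C 5 * 3 := by
    rw [← map_ofNat (C : ℂ →+* MvPolynomial (Option (Option Unit)) ℂ) 3, ← C_mul]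
    norm_num
  rw [h]
  simp [pderiv_X, Derivation.leibniz, Derivation.leibniz_pow]
  ring

theorem f_y : pderiv (some (some ())) f = X none ^ 2 * X (some none) +
    C (3 / 2) * (X none * X (some (some ())) ^ 2) + C 5 * X (some none) ^ 3 := by
  unfold f
  have h : (C (3 / 2) : MvPolynomial (Option (Option Unit)) ℂ) = C (1 / 2) * 3 := by
    rw [← map_ofNat (C : ℂ →+* MvPolynomial (Option (Option Unit)) ℂ) 3, ← C_mul]
    norm_num
  rw [h]
  simp [pderiv_X, Derivation.leibniz, Derivation.leibniz_pow]
  ring

/-! ### finiteness -/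

/-- the point `(u, w, y)` -/
def v3 (a b c : ℂ) : Option (Option Unit) → ℂ := fun o => o.elim a fun o' => o'.elim b fun _ => c

theorem eq_smul {x : Option (Option Unit) → ℂ} {a b c t : ℂ} (h1 : x none = t * a) (h2 : x (some none) = t * b)
    (h3 : x (some (some ())) = t * c) : x = t • v3 a b c := by
  funext o
  rcases o with _ | _ | ⟨⟩
  · exact h1
  · exact h2
  · exact h3

theorem eig_eqs {x : Option (Option Unit) → ℂ} (hx : IsEig f (gram Unit) x) :
    x (some (some ())) * (15 * x (some none) ^ 3 - x none ^ 2 * x (some none) -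
        1 / 2 * (x none * x (some (some ())) ^ 2)) = 0 ∧
      x none ^ 2 * x (some none) ^ 2 - 1 / 2 * (x none * x (some none) * x (some (some ())) ^ 2) +
        5 * x (some none) ^ 4 - 1 / 2 * x (some (some ())) ^ 4 = 0 ∧
      x none ^ 3 * x (some none) + 1 / 2 * (x none ^ 2 * x (some (some ())) ^ 2) + 5 * (x none * x (some none) ^ 3) -
        15 * (x (some none) ^ 2 * x (some (some ())) ^ 2) = 0 := by
  have h1 := hx none (some none)
  have h2 := hx none (some (some ()))
  have h3 := hx (some none) (some (some ()))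
  rw [sl_gram, sl_gram] at h1 h2 h3
  rw [f_u, f_w] at h1
  rw [f_u, f_y] at h2
  rw [f_w, f_y] at h3
  simp only [slq, map_sub, map_mul, map_add, map_pow, eval_X, eval_C, map_ofNat] at h1 h2 h3
  refine ⟨?_, ?_, ?_⟩
  · linear_combination h1
  · linear_combination h2
  · linear_combination h3

theorem projFin_f : ProjFin {x | IsEig f (gram Unit) x} := by
  obtain ⟨r, hr⟩ := IsAlgClosed.exists_pow_nat_eq (-5 : ℂ) (n := 2) (by norm_num)
  refine ⟨{v3 1 0 0, v3 r 1 0, v3 (-r) 1 0, v3 3 1 2, v3 3 1 (-2), v3 (-3) 1 (2 * Complex.I),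
    v3 (-3) 1 (-(2 * Complex.I))}, by simp, ?_⟩
  intro x hx
  obtain ⟨h1, h2, h3⟩ := eig_eqs hx
  set u := x none with hu
  set w := x (some none) with hw
  set y := x (some (some ())) with hy
  by_cases hw0 : w = 0
  · have hy0 : y = 0 := by
      rw [hw0] at h2
      have : y ^ 4 = 0 := by linear_combination -2 * h2
      exact pow_eq_zero_iff (by norm_num) |>.mp this
    refine ⟨v3 1 0 0, by simp, u, eq_smul (by rw [mul_one]) (by rw [mul_zero, ← hw, hw0])
      (by rw [mul_zero, ← hy, hy0])⟩
  · by_cases hy0 : y = 0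
    · have h4 : (u - r * w) * (u + r * w) = 0 := by
        have h5 : w ^ 2 * ((u - r * w) * (u + r * w)) = 0 := by
          rw [hy0] at h2
          linear_combination h2 - w ^ 4 * hr
        exact (mul_eq_zero.mp h5).resolve_left (pow_ne_zero 2 hw0)
      rcases mul_eq_zero.mp h4 with h5 | h5
      · refine ⟨v3 r 1 0, by simp, w, eq_smul ?_ (by rw [mul_one]) (by rw [mul_zero, ← hy, hy0])⟩
        linear_combination h5
      · refine ⟨v3 (-r) 1 0, by simp, w, eq_smul ?_ (by rw [mul_one]) (by rw [mul_zero, ← hy, hy0])⟩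
        linear_combination h5
    · have g1 : 15 * w ^ 3 - u ^ 2 * w - 1 / 2 * (u * y ^ 2) = 0 := (mul_eq_zero.mp h1).resolve_left hy0
      have g2 : w ^ 2 * (4 * (u * w) - 3 * y ^ 2) = 0 := by
        linear_combination (1 / 5) * h3 + (1 / 5) * u * g1
      have g3 : 4 * (u * w) - 3 * y ^ 2 = 0 := (mul_eq_zero.mp g2).resolve_left (pow_ne_zero 2 hw0)
      have g4 : w * ((u - 3 * w) * (u + 3 * w)) = 0 := by
        linear_combination (-3 / 5) * g1 + (1 / 10) * u * g3
      have g5 := (mul_eq_zero.mp g4).resolve_left hw0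
      rcases mul_eq_zero.mp g5 with g6 | g6
      · have g7 : (y - 2 * w) * (y + 2 * w) = 0 := by
          linear_combination (-1 / 3) * g3 + (4 / 3) * w * g6
        rcases mul_eq_zero.mp g7 with g8 | g8
        · refine ⟨v3 3 1 2, by simp, w, eq_smul ?_ (by rw [mul_one]) ?_⟩
          · linear_combination g6
          · linear_combination g8
        · refine ⟨v3 3 1 (-2), by simp, w, eq_smul ?_ (by rw [mul_one]) ?_⟩
          · linear_combination g6
          · linear_combination g8
      · have g7 : (y - 2 * Complex.I * w) * (y + 2 * Complex.I * w) = 0 := by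
          linear_combination (-1 / 3) * g3 + (4 / 3) * w * g6 - 4 * w ^ 2 * Complex.I_mul_I
        rcases mul_eq_zero.mp g7 with g8 | g8
        · refine ⟨v3 (-3) 1 (2 * Complex.I), by simp, w, eq_smul ?_ (by rw [mul_one]) ?_⟩
          · linear_combination g6
          · linear_combination g8
        · refine ⟨v3 (-3) 1 (-(2 * Complex.I)), by simp, w, eq_smul ?_ (by rw [mul_one]) ?_⟩
          · linear_combination g6
          · linear_combination g8

/-! ### the multiplicity -/

/-- the factor `w + y²/2 - 15 w³` -/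
def gA : MvPolynomial (Option Unit) ℂ := X none + C (1 / 2) * X (some ()) ^ 2 - C 15 * X none ^ 3

/-- the equation `w + y²/2 + 5 w³ - 15 w² y²` -/
def gB : MvPolynomial (Option Unit) ℂ :=
  X none + C (1 / 2) * X (some ()) ^ 2 + C 5 * X none ^ 3 - C 15 * (X none ^ 2 * X (some ()) ^ 2)

/-- the two equations in the chart -/
def sys (g : MvPolynomial (Option Unit) ℂ) : Option Unit → MvPolynomial (Option Unit) ℂ := fun o => o.elim g fun _ => gB

theorem C_eq {σ : Type} (a b c : ℂ) (h : a = b * c) : (C a : MvPolynomial σ ℂ) = C b * C c := by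
  rw [h, C_mul]

theorem aff_eq : affIdeal f (gram Unit) (some none) =
    Ideal.span (Set.range (sys (X (some ()) * gA))) := by
  have e0 : dehom (pderiv none f - sl (gram Unit) none * pderiv (some none) f) = X (some ()) * gA := by
    rw [sl_gram, f_u, f_w]
    unfold gA
    have h2 : ∀ c : ℂ, dehom (C c : MvPolynomial (Option (Option Unit)) ℂ) = C c := fun c => dehom.commutes c
    simp only [slq, map_sub, map_mul, map_add, map_pow, dehom_X_none, dehom_X_some, map_ofNat]
    rw [h2]
    ring
  have e1 : dehom (pderiv (some none) f - sl (gram Unit) (some none) * pderiv (some none) f) = 0 := by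
    rw [sl_gram]
    simp only [slq, map_sub, map_mul, dehom_X_none]
    ring
  have e2 : dehom (pderiv (some (some ())) f - sl (gram Unit) (some (some ())) * pderiv (some none) f) = gB := by
    rw [sl_gram, f_y, f_w]
    unfold gB
    have h : (C (3 / 2) : MvPolynomial (Option Unit) ℂ) = C (1 / 2) + 1 := by
      rw [← C_1, ← C_add]
      norm_num
    have h2 : ∀ c : ℂ, dehom (C c : MvPolynomial (Option (Option Unit)) ℂ) = C c := fun c => dehom.commutes c
    simp only [slq, map_sub, map_mul, map_add, map_pow, dehom_X_none, dehom_X_some, map_ofNat]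
    rw [h2, h]
    ring
  unfold affIdeal
  apply le_antisymm
  · rw [Ideal.span_le]
    rintro _ ⟨j, rfl⟩
    rcases j with _ | _ | ⟨⟩
    · change dehom (pderiv none f - sl (gram Unit) none * pderiv (some none) f) ∈ _
      rw [e0]
      exact Ideal.subset_span ⟨none, rfl⟩
    · change dehom (pderiv (some none) f - sl (gram Unit) (some none) * pderiv (some none) f) ∈ _
      rw [e1]
      exact Ideal.zero_mem _
    · change dehom (pderiv (some (some ())) f - sl (gram Unit) (some (some ())) * pderiv (some none) f) ∈ _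
      rw [e2]
      exact Ideal.subset_span ⟨some (), rfl⟩
  · rw [Ideal.span_le]
    rintro _ ⟨j, rfl⟩
    rcases j with _ | ⟨⟩
    · change X (some ()) * gA ∈ _
      rw [← e0]
      exact Ideal.subset_span ⟨none, rfl⟩
    · change gB ∈ _
      rw [← e2]
      exact Ideal.subset_span ⟨some (some ()), rfl⟩

/-- weights 1 -/
def w1 : Option Unit → ℕ := fun _ => 1

/-- weights 2 for `w`, 1 for `y` -/
def w2 : Option Unit → ℕ := fun o => o.elim 2 fun _ => 1

theorem mul_sheet1 : mulAt (Ideal.span (Set.range (sys (X (some ()))))) 0 = 1 := by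
  have hX : ∀ i, wh w1 1 (X i : MvPolynomial (Option Unit) ℂ) := fun i => wh_X w1 i
  have h := wBez (w := w1) (fun _ => Nat.one_pos) (f := sys (X (some ())))
    (g := fun o => o.elim (X (some ())) fun _ => X none) (d := fun _ => 1) (fun _ => Nat.one_pos)
    (fun i => by
      rcases i with _ | ⟨⟩
      · exact hX _
      · exact hX _)
    (fun x hx => by
      have h1 := hx none
      have h2 := hx (some ())
      simp only [Option.elim, eval_X] at h1 h2
      funext o
      rcases o with _ | ⟨⟩
      · exact h2
      · exact h1)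
    (fun i => by
      rcases i with _ | ⟨⟩
      · refine ⟨(hX _).wlo, ?_⟩
        have : sys (X (some ())) none - X (some ()) = 0 := sub_self _
        simp only [Option.elim]
        rw [this]
        exact wlo_zero _ _
      · refine ⟨(hX _).wlo, ?_⟩
        have : sys (X (some ())) (some ()) - X none = C (1 / 2) * X (some ()) ^ 2 + C 5 * X none ^ 3 -
            C 15 * (X none ^ 2 * X (some ()) ^ 2) := by
          change gB - X none = _
          unfold gB
          ring
        simp only [Option.elim]
        rw [this]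
        refine wlo_sub (wlo_add (wlo_C_mul _ ?_) (wlo_C_mul _ ?_)) (wlo_C_mul _ ?_)
        · exact wlo_pow (hX _).wlo 2
        · exact wlo_mono (by norm_num) (wlo_pow (hX _).wlo 3)
        · exact wlo_mono (by norm_num) (wlo_mul (wlo_pow (hX _).wlo 2) (wlo_pow (hX _).wlo 2)))
  simpa [w1] using h

/-- the second sheet with the difference of the two equations -/
def sysD : Option Unit → MvPolynomial (Option Unit) ℂ :=
  fun o => o.elim gA fun _ => C 20 * X none ^ 3 - C 15 * (X none ^ 2 * X (some ()) ^ 2)

theorem span_sysD : Ideal.span (Set.range (sys gA)) = Ideal.span (Set.range sysD) := by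
  have h : gB = gA + (C 20 * X none ^ 3 - C 15 * (X none ^ 2 * X (some ()) ^ 2)) := by
    unfold gA gB
    have h1 : (C 20 : MvPolynomial (Option Unit) ℂ) = C 5 + C 15 := by
      rw [← C_add]
      norm_num
    rw [h1]
    ring
  apply le_antisymm
  · rw [Ideal.span_le]
    rintro _ ⟨j, rfl⟩
    rcases j with _ | ⟨⟩
    · exact Ideal.subset_span ⟨none, rfl⟩
    · change gB ∈ _
      rw [h]
      exact Ideal.add_mem _ (Ideal.subset_span ⟨none, rfl⟩) (Ideal.subset_span ⟨some (), rfl⟩)
  · rw [Ideal.span_le]
    rintro _ ⟨j, rfl⟩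
    rcases j with _ | ⟨⟩
    · exact Ideal.subset_span ⟨none, rfl⟩
    · change C 20 * X none ^ 3 - C 15 * (X none ^ 2 * X (some ()) ^ 2) ∈ _
      have h2 : (C 20 * X none ^ 3 - C 15 * (X none ^ 2 * X (some ()) ^ 2) : MvPolynomial (Option Unit) ℂ) =
          gB - gA := by
        rw [h]
        ring
      rw [h2]
      exact Ideal.sub_mem _ (Ideal.subset_span ⟨some (), rfl⟩) (Ideal.subset_span ⟨none, rfl⟩)

theorem mul_sheet2 : mulAt (Ideal.span (Set.range (sys gA))) 0 = 6 := by
  rw [span_sysD]
  have hW : wh w2 2 (X none : MvPolynomial (Option Unit) ℂ) := wh_X w2 none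
  have hY : wh w2 1 (X (some ()) : MvPolynomial (Option Unit) ℂ) := wh_X w2 (some ())
  have hD : wh w2 6 (C 20 * X none ^ 3 - C 15 * (X none ^ 2 * X (some ()) ^ 2) : MvPolynomial (Option Unit) ℂ) :=
    wh_sub (wh_C_mul _ (wh_pow hW 3)) (wh_C_mul _ (wh_mul (wh_pow hW 2) (wh_pow hY 2)))
  have hA : wh w2 2 (X none + C (1 / 2) * X (some ()) ^ 2 : MvPolynomial (Option Unit) ℂ) :=
    wh_add hW (wh_C_mul _ (wh_pow hY 2))
  have h := wBez (w := w2) (fun i => by
      rcases i with _ | ⟨⟩
      · exact Nat.two_pos
      · exact Nat.one_pos) (f := sysD)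
    (g := fun o => o.elim (X none + C (1 / 2) * X (some ()) ^ 2) fun _ =>
      C 20 * X none ^ 3 - C 15 * (X none ^ 2 * X (some ()) ^ 2)) (d := fun o => o.elim 2 fun _ => 6)
    (fun i => by
      rcases i with _ | ⟨⟩
      · exact Nat.two_pos
      · exact (by norm_num : 0 < 6))
    (fun i => by
      rcases i with _ | ⟨⟩
      · exact hA
      · exact hD)
    (fun x hx => by
      have h1 := hx none
      have h2 := hx (some ())
      simp only [Option.elim, eval_X, eval_C, map_add, map_sub, map_mul, map_pow] at h1 h2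
      have h3 : x none = -(1 / 2 * x (some ()) ^ 2) := by linear_combination h1
      have h4 : x (some ()) ^ 6 = 0 := by
        rw [h3] at h2
        linear_combination (-4 / 25) * h2
      have h5 : x (some ()) = 0 := pow_eq_zero_iff (by norm_num) |>.mp h4
      funext o
      rcases o with _ | ⟨⟩
      · rw [h3, h5]
        simp
      · exact h5)
    (fun i => by
      rcases i with _ | ⟨⟩
      · refine ⟨hA.wlo, ?_⟩
        have : sysD none - (X none + C (1 / 2) * X (some ()) ^ 2) = -(C 15 * X none ^ 3) := by
          change gA - _ = _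
          unfold gA
          ring
        simp only [Option.elim]
        rw [this]
        exact wlo_neg (wlo_C_mul _ (wlo_mono (by norm_num) (wlo_pow hW.wlo 3)))
      · refine ⟨hD.wlo, ?_⟩
        have : sysD (some ()) - (C 20 * X none ^ 3 - C 15 * (X none ^ 2 * X (some ()) ^ 2)) = 0 := sub_self _
        simp only [Option.elim]
        rw [this]
        exact wlo_zero _ _)
  have h2 : ∏ i, w2 i = 2 := by
    rw [Fintype.prod_option]
    simp [w2]
  have h3 : ∏ i : Option Unit, (fun o : Option Unit => o.elim 2 fun _ => 6) i = 12 := by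
    rw [Fintype.prod_option]
    simp
  rw [h2, h3] at h
  omega

theorem mul_f : mulAt (affIdeal f (gram Unit) (some none)) 0 = 7 := by
  have e : ∀ g, Function.update (sys 0) none g = sys g := by
    intro g
    funext o
    rcases o with _ | ⟨⟩
    · exact Function.update_self _ _ _
    · exact Function.update_of_ne (by simp) _ _
  have h := cmAdd (sys 0) none (X (some ())) gA (by rw [e, mul_sheet1]; norm_num)
    (by rw [e, mul_sheet2]; norm_num)
  rw [e, e, e, mul_sheet1, mul_sheet2] at h
  rw [aff_eq, h]

end

end K3C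

/-- **the value `(q, N, m) = (3, 3, 7)`** -/
theorem rz_3_3_7 : Rz 3 3 7 :=
  rz_of_form (by simp) K3C.f K3C.f_hom K3C.projFin_f
    (fun g hg => eval_eq_zero_of_pos (by rw [K3C.mul_f]; norm_num) hg) K3C.mul_f

end EY
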