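import Pool.Agent.helper65.EY.K3C

set_option autoImplicit false
set_option linter.unusedSectionVars false
set_option linter.unusedSimpArgs false

/-!
# EY-K3D: `Rz 3 3 6`

`f = 8 u² y² + 3 w³ y`, metric `2 u w + y²`.  In the chart `u = 1` the equations are `y (16 y - 9 w³) = 0` and
`16 y + 3 w³ - 9 w² y² = 0`: both sheets have multiplicity 3.
-/

namespace EY

namespace K3D

open MvPolynomial K3C

noncomputable section

/-- the form -/
def f : MvPolynomial (Option (Option Unit)) ℂ :=
  C 8 * (X none ^ 2 * X (some (some ())) ^ 2) + C 3 * (X (some none) ^ 3 * X (some (some ())))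

theorem f_hom : f.IsHomogeneous (3 + 1) := by
  unfold f
  have h1 := (isHomogeneous_C (Option (Option Unit)) (8 : ℂ)).mul
    (((isHomogeneous_X ℂ (none : Option (Option Unit))).pow 2).mul
      ((isHomogeneous_X ℂ (some (some ()) : Option (Option Unit))).pow 2))
  have h2 := (isHomogeneous_C (Option (Option Unit)) (3 : ℂ)).mul
    (((isHomogeneous_X ℂ (some none : Option (Option Unit))).pow 3).mul
      (isHomogeneous_X ℂ (some (some ()) : Option (Option Unit))))
  refine IsHomogeneous.add ?_ ?_
  · simpa using h1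
  · simpa using h2

theorem C_num {σ : Type} (a b c : ℂ) (h : a = b * c) : (C a : MvPolynomial σ ℂ) = C b * C c := by
  rw [h, C_mul]

theorem f_u : pderiv none f = C 16 * (X none * X (some (some ())) ^ 2) := by
  unfold f
  have h : (C 16 : MvPolynomial (Option (Option Unit)) ℂ) = C 8 * 2 := by
    rw [← map_ofNat (C : ℂ →+* MvPolynomial (Option (Option Unit)) ℂ) 2, ← C_mul]
    norm_num
  rw [h]
  simp [pderiv_X, Derivation.leibniz, Derivation.leibniz_pow]
  ring

theorem f_w : pderiv (some none) f = C 9 * (X (some none) ^ 2 * X (some (some ()))) := by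
  unfold f
  have h : (C 9 : MvPolynomial (Option (Option Unit)) ℂ) = C 3 * 3 := by
    rw [← map_ofNat (C : ℂ →+* MvPolynomial (Option (Option Unit)) ℂ) 3, ← C_mul]
    norm_num
  rw [h]
  simp [pderiv_X, Derivation.leibniz, Derivation.leibniz_pow]
  ring

theorem f_y : pderiv (some (some ())) f = C 16 * (X none ^ 2 * X (some (some ()))) + C 3 * X (some none) ^ 3 := by
  unfold f
  have h : (C 16 : MvPolynomial (Option (Option Unit)) ℂ) = C 8 * 2 := by
    rw [← map_ofNat (C : ℂ →+* MvPolynomial (Option (Option Unit)) ℂ) 2, ← C_mul]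
    norm_num
  rw [h]
  simp [pderiv_X, Derivation.leibniz, Derivation.leibniz_pow]
  ring

/-! ### finiteness -/

theorem eig_eqs {x : Option (Option Unit) → ℂ} (hx : IsEig f (gram Unit) x) :
    x (some (some ())) * (9 * x (some none) ^ 3 - 16 * (x none ^ 2 * x (some (some ())))) = 0 ∧
      16 * (x none ^ 2 * x (some none) * x (some (some ()))) + 3 * x (some none) ^ 4 -
        16 * (x none * x (some (some ())) ^ 3) = 0 ∧
      16 * (x none ^ 3 * x (some (some ()))) + 3 * (x none * x (some none) ^ 3) -
        9 * (x (some none) ^ 2 * x (some (some ())) ^ 2) = 0 := by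
  have h1 := hx none (some none)
  have h2 := hx none (some (some ()))
  have h3 := hx (some none) (some (some ()))
  rw [sl_gram, sl_gram] at h1 h2 h3
  rw [f_u, f_w] at h1
  rw [f_u, f_y] at h2
  rw [f_w, f_y] at h3
  simp only [slq, map_sub, map_mul, map_add, map_pow, eval_X, eval_C, map_ofNat] at h1 h2 h3
  refine ⟨?_, ?_, ?_⟩
  · linear_combination h1
  · linear_combination h2
  · linear_combination h3

theorem finite_root (n : ℕ) (hn : 0 < n) (c : ℂ) : {y : ℂ | y ^ n = c}.Finite := by
  refine ((Polynomial.nthRoots n c).toFinset.finite_toSet).subset ?_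
  intro y hy
  rw [Finset.mem_coe, Multiset.mem_toFinset, Polynomial.mem_nthRoots hn]
  exact hy

theorem projFin_f : ProjFin {x | IsEig f (gram Unit) x} := by
  refine ⟨insert (v3 1 0 0) (insert (v3 0 0 1) ((fun y => v3 (3 / 4 * y ^ 2) 1 y) '' {y : ℂ | y ^ 5 = 1})),
    (((finite_root 5 (by norm_num) 1).image _).insert _).insert _, ?_⟩
  intro x hx
  obtain ⟨h1, h2, h3⟩ := eig_eqs hx
  set u := x none with hu
  set w := x (some none) with hw
  set y := x (some (some ())) with hy
  by_cases hy0 : y = 0
  · have hw0 : w = 0 := by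
      rw [hy0] at h2
      have : w ^ 4 = 0 := by linear_combination (1 / 3) * h2
      exact pow_eq_zero_iff (by norm_num) |>.mp this
    exact ⟨v3 1 0 0, Set.mem_insert _ _, u, eq_smul (by rw [mul_one]) (by rw [mul_zero, ← hw, hw0])
      (by rw [mul_zero, ← hy, hy0])⟩
  · have g1 : 9 * w ^ 3 - 16 * (u ^ 2 * y) = 0 := (mul_eq_zero.mp h1).resolve_left hy0
    by_cases hw0 : w = 0
    · have hu0 : u = 0 := by
        rw [hw0] at g1
        have g2 : y * u ^ 2 = 0 := by linear_combination (-1 / 16) * g1
        exact pow_eq_zero_iff (by norm_num) |>.mp ((mul_eq_zero.mp g2).resolve_left hy0)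
      exact ⟨v3 0 0 1, Set.mem_insert_of_mem _ (Set.mem_insert _ _), y,
        eq_smul (by rw [mul_zero, ← hu, hu0]) (by rw [mul_zero, ← hw, hw0]) (by rw [mul_one])⟩
    · have g2 : w ^ 2 * (4 * (u * w) - 3 * y ^ 2) = 0 := by
        linear_combination (1 / 3) * h3 + (1 / 3) * u * g1
      have g3 : 4 * (u * w) - 3 * y ^ 2 = 0 := (mul_eq_zero.mp g2).resolve_left (pow_ne_zero 2 hw0)
      -- `y⁵ = w⁵`
      have g4 : y ^ 5 = w ^ 5 := by
        linear_combination (-1 / 9) * w ^ 2 * g1 - (1 / 9) * y * (4 * (u * w) + 3 * y ^ 2) * g3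
      refine ⟨v3 (3 / 4 * (y / w) ^ 2) 1 (y / w), Set.mem_insert_of_mem _ (Set.mem_insert_of_mem _ ⟨y / w, ?_, rfl⟩), w,
        eq_smul ?_ (by rw [mul_one]) ?_⟩
      · change (y / w) ^ 5 = 1
        rw [div_pow, g4, div_self (pow_ne_zero 5 hw0)]
      · rw [← hu]
        field_simp
        linear_combination g3
      · rw [← hy]
        field_simp

/-! ### the multiplicity -/

/-- the factor `16 y - 9 w³` -/
def gA : MvPolynomial (Option Unit) ℂ := C 16 * X (some ()) - C 9 * X none ^ 3

/-- the equation `16 y + 3 w³ - 9 w² y²` -/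
def gB : MvPolynomial (Option Unit) ℂ :=
  C 16 * X (some ()) + C 3 * X none ^ 3 - C 9 * (X none ^ 2 * X (some ()) ^ 2)

/-- the two equations in the chart -/
def sys (g : MvPolynomial (Option Unit) ℂ) : Option Unit → MvPolynomial (Option Unit) ℂ := fun o => o.elim g fun _ => gB

theorem aff_eq : affIdeal f (gram Unit) (some none) =
    Ideal.span (Set.range (sys (X (some ()) * gA))) := by
  have h2 : ∀ c : ℂ, dehom (C c : MvPolynomial (Option (Option Unit)) ℂ) = C c := fun c => dehom.commutes c
  have e0 : dehom (pderiv none f - sl (gram Unit) none * pderiv (some none) f) = X (some ()) * gA := by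
    rw [sl_gram, f_u, f_w]
    unfold gA
    simp only [slq, map_sub, map_mul, map_add, map_pow, dehom_X_none, dehom_X_some, map_ofNat]
    ring
  have e1 : dehom (pderiv (some none) f - sl (gram Unit) (some none) * pderiv (some none) f) = 0 := by
    rw [sl_gram]
    simp only [slq, map_sub, map_mul, dehom_X_none]
    ring
  have e2 : dehom (pderiv (some (some ())) f - sl (gram Unit) (some (some ())) * pderiv (some none) f) = gB := by
    rw [sl_gram, f_y, f_w]
    unfold gB
    simp only [slq, map_sub, map_mul, map_add, map_pow, dehom_X_none, dehom_X_some, map_ofNat]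
    ring
  unfold affIdeal
  apply le_antisymm
  · rw [Ideal.span_le]
    rintro _ ⟨j, rfl⟩
    rcases j with _ | _ | ⟨⟩
    · change dehom (pderiv none f - sl (gram Unit) none * pderiv (some none) f) ∈ _
      rw [e0]
      exact Ideal.subset_span ⟨none, rfl⟩
    · change dehom (pderiv (some none) f - sl (gram Unit) (some none) * pderiv (some none) f) ∈ _
      rw [e1]
      exact Ideal.zero_mem _
    · change dehom (pderiv (some (some ())) f - sl (gram Unit) (some (some ())) * pderiv (some none) f) ∈ _
      rw [e2]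
      exact Ideal.subset_span ⟨some (), rfl⟩
  · rw [Ideal.span_le]
    rintro _ ⟨j, rfl⟩
    rcases j with _ | ⟨⟩
    · change X (some ()) * gA ∈ _
      rw [← e0]
      exact Ideal.subset_span ⟨none, rfl⟩
    · change gB ∈ _
      rw [← e2]
      exact Ideal.subset_span ⟨some (some ()), rfl⟩

/-- weights 1 for `w`, 3 for `y` -/
def w3 : Option Unit → ℕ := fun o => o.elim 1 fun _ => 3

theorem w3_pos : ∀ i, 0 < w3 i := fun i => by
  rcases i with _ | ⟨⟩
  · exact Nat.one_pos
  · exact (by norm_num : 0 < 3)

theorem hW : wh w3 1 (X none : MvPolynomial (Option Unit) ℂ) := wh_X w3 none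

theorem hY : wh w3 3 (X (some ()) : MvPolynomial (Option Unit) ℂ) := wh_X w3 (some ())

theorem prod_w3 : ∏ i, w3 i = 3 := by
  rw [Fintype.prod_option]
  simp [w3]

theorem prod_d : ∏ i : Option Unit, (fun _ : Option Unit => 3) i = 9 := by
  rw [Fintype.prod_option]
  simp

theorem hB : wh w3 3 (C 16 * X (some ()) + C 3 * X none ^ 3 : MvPolynomial (Option Unit) ℂ) :=
  wh_add (wh_C_mul _ hY) (wh_C_mul _ (wh_pow hW 3))

theorem hA : wh w3 3 (C 16 * X (some ()) - C 9 * X none ^ 3 : MvPolynomial (Option Unit) ℂ) :=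
  wh_sub (wh_C_mul _ hY) (wh_C_mul _ (wh_pow hW 3))

theorem lead_B : Lead w3 3 gB (C 16 * X (some ()) + C 3 * X none ^ 3) := by
  refine ⟨hB.wlo, ?_⟩
  have : gB - (C 16 * X (some ()) + C 3 * X none ^ 3) = -(C 9 * (X none ^ 2 * X (some ()) ^ 2)) := by
    unfold gB
    ring
  rw [this]
  exact wlo_neg (wlo_C_mul _ (wlo_mono (by norm_num) (wlo_mul (wlo_pow hW.wlo 2) (wlo_pow hY.wlo 2))))

theorem mul_sheet1 : mulAt (Ideal.span (Set.range (sys (X (some ()))))) 0 = 3 := by
  have h := wBez (w := w3) w3_pos (f := sys (X (some ())))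
    (g := fun o => o.elim (X (some ())) fun _ => C 16 * X (some ()) + C 3 * X none ^ 3)
    (d := fun _ => 3) (fun _ => by norm_num)
    (fun i => by
      rcases i with _ | ⟨⟩
      · exact hY
      · exact hB)
    (fun x hx => by
      have h1 := hx none
      have h2 := hx (some ())
      simp only [Option.elim, eval_X, eval_C, map_add, map_mul, map_pow] at h1 h2
      have h3 : x none ^ 3 = 0 := by
        rw [h1] at h2
        linear_combination (1 / 3) * h2
      funext o
      rcases o with _ | ⟨⟩
      · exact pow_eq_zero_iff (by norm_num) |>.mp h3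
      · exact h1)
    (fun i => by
      rcases i with _ | ⟨⟩
      · refine ⟨hY.wlo, ?_⟩
        have : sys (X (some ())) none - X (some ()) = 0 := sub_self _
        simp only [Option.elim]
        rw [this]
        exact wlo_zero _ _
      · exact lead_B)
  rw [prod_w3, prod_d] at h
  omega

theorem mul_sheet2 : mulAt (Ideal.span (Set.range (sys gA))) 0 = 3 := by
  have h := wBez (w := w3) w3_pos (f := sys gA)
    (g := fun o => o.elim (C 16 * X (some ()) - C 9 * X none ^ 3) fun _ => C 16 * X (some ()) + C 3 * X none ^ 3)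
    (d := fun _ => 3) (fun _ => by norm_num)
    (fun i => by
      rcases i with _ | ⟨⟩
      · exact hA
      · exact hB)
    (fun x hx => by
      have h1 := hx none
      have h2 := hx (some ())
      simp only [Option.elim, eval_X, eval_C, map_add, map_sub, map_mul, map_pow] at h1 h2
      have h3 : x none ^ 3 = 0 := by linear_combination (1 / 12) * h2 - (1 / 12) * h1
      have h4 : x none = 0 := pow_eq_zero_iff (by norm_num) |>.mp h3
      have h5 : x (some ()) = 0 := by
        rw [h3] at h2
        linear_combination (1 / 16) * h2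
      funext o
      rcases o with _ | ⟨⟩
      · exact h4
      · exact h5)
    (fun i => by
      rcases i with _ | ⟨⟩
      · refine ⟨hA.wlo, ?_⟩
        have : sys gA none - (C 16 * X (some ()) - C 9 * X none ^ 3) = 0 := sub_self _
        simp only [Option.elim]
        rw [this]
        exact wlo_zero _ _
      · exact lead_B)
  rw [prod_w3, prod_d] at h
  omega

theorem mul_f : mulAt (affIdeal f (gram Unit) (some none)) 0 = 6 := by
  have e : ∀ g, Function.update (sys 0) none g = sys g := by
    intro g
    funext o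
    rcases o with _ | ⟨⟩
    · exact Function.update_self _ _ _
    · exact Function.update_of_ne (by simp) _ _
  have h := cmAdd (sys 0) none (X (some ())) gA (by rw [e, mul_sheet1]; norm_num)
    (by rw [e, mul_sheet2]; norm_num)
  rw [e, e, e, mul_sheet1, mul_sheet2] at h
  rw [aff_eq, h]

end

end K3D

/-- **the value `(q, N, m) = (3, 3, 6)`** -/
theorem rz_3_3_6 : Rz 3 3 6 :=
  rz_of_form (by simp) K3D.f K3D.f_hom K3D.projFin_f
    (fun g hg => eval_eq_zero_of_pos (by rw [K3D.mul_f]; norm_num) hg) K3D.mul_f

end EY
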